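import Pool.Agent.Y981.QB.Stm

/-!
Job QB-MAIN: choice of the parameters.
-/

set_option autoImplicit false

namespace Pool.Agent.Y25.QB

open Filter Topology Pool.Agent.Y981.QB H978R2.Hex

theorem mu0_pos : 0 < mu0 := Real.sqrt_pos.2 (by positivity)

theorem dst_comm (u v : V) : dst u v = dst v u := by
  unfold dst
  exact norm_sub_rev _ _

theorem adj_gt {v : V} {n : ℕ} {l : List V} (h : IsSW v n l) :
    ∀ i < n, Adj (gt l i) (gt l (i + 1)) := by
  obtain ⟨hlen, -, hch, -⟩ := h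
  rw [List.isChain_iff_getElem] at hch
  intro i hi
  have h1 : i < l.length := by omega
  have h2 : i + 1 < l.length := by omega
  unfold gt
  rw [List.getD_eq_getElem _ _ h1, List.getD_eq_getElem _ _ h2]
  exact hch i h2

theorem X_tendsto : Tendsto (fun n : ℕ => Real.log n / Real.log (Real.log n)) atTop atTop := by
  have h1 : Tendsto (fun x : ℝ => x / Real.log x) atTop atTop := by
    have h2 : Tendsto (fun x : ℝ => Real.sqrt x / 2) atTop atTop :=
      Real.tendsto_sqrt_atTop.atTop_div_const (by norm_num)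
    refine tendsto_atTop_mono' _ ?_ h2
    filter_upwards [eventually_gt_atTop (1 : ℝ)] with x hx
    have hlog : 0 < Real.log x := Real.log_pos hx
    have hle : Real.log x ≤ 2 * Real.sqrt x := by
      have := Real.log_le_rpow_div (by linarith : (0:ℝ) ≤ x) (by norm_num : (0:ℝ) < 1/2)
      rw [← Real.sqrt_eq_rpow] at this
      linarith
    rw [le_div_iff₀ hlog]
    have hs := Real.mul_self_sqrt (by linarith : (0:ℝ) ≤ x)
    have hs0 := Real.sqrt_nonneg x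
    nlinarith
  exact h1.comp (Real.tendsto_log_atTop.comp tendsto_natCast_atTop_atTop)

theorem numbers (Λ : ℝ) : ∃ n0 : ℕ, ∀ n : ℕ, n0 ≤ n →
    10 ^ 7 ≤ Real.log n ∧ 4 * Λ + 1 ≤ Real.log n ∧ 1 ≤ Real.log (Real.log n) ∧
    56 ≤ Real.log n / Real.log (Real.log n) ∧
    Real.log (3 * 10 ^ 13) < 1 / (64 * 10 ^ 12) * (Real.log n / Real.log (Real.log n)) := by
  have hT : Tendsto (fun n : ℕ => Real.log n) atTop atTop :=
    Real.tendsto_log_atTop.comp tendsto_natCast_atTop_atTop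
  have hTT : Tendsto (fun n : ℕ => Real.log (Real.log n)) atTop atTop :=
    Real.tendsto_log_atTop.comp hT
  have h : ∀ᶠ n : ℕ in atTop, 10 ^ 7 ≤ Real.log n ∧ 4 * Λ + 1 ≤ Real.log n ∧
      1 ≤ Real.log (Real.log n) ∧ 56 ≤ Real.log n / Real.log (Real.log n) ∧
      Real.log (3 * 10 ^ 13) < 1 / (64 * 10 ^ 12) * (Real.log n / Real.log (Real.log n)) := by
    filter_upwards [hT.eventually_ge_atTop (10 ^ 7), hT.eventually_ge_atTop (4 * Λ + 1),
      hTT.eventually_ge_atTop 1, X_tendsto.eventually_ge_atTop 56,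
      X_tendsto.eventually_gt_atTop (64 * 10 ^ 12 * Real.log (3 * 10 ^ 13))] with n a1 a2 a3 a4 a5
    refine ⟨a1, a2, a3, a4, ?_⟩
    linarith
  exact eventually_atTop.1 h

theorem params (Λ : ℝ) (hΛ : 1 ≤ Λ) (n : ℕ) (f1 : 10 ^ 7 ≤ Real.log n)
    (f2 : 4 * Λ + 1 ≤ Real.log n) (f3 : 1 ≤ Real.log (Real.log n))
    (f4 : 56 ≤ Real.log n / Real.log (Real.log n))
    (f5 : Real.log (3 * 10 ^ 13) < 1 / (64 * 10 ^ 12) * (Real.log n / Real.log (Real.log n))) :
    ∃ lam I K : ℕ, 10 ^ 13 ≤ lam ∧ Λ * Real.log (n + 2) ^ 2 ≤ lam ∧ 1 ≤ K ∧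
      (n : ℝ) ^ (1/4 : ℝ) ≤ K ∧ (I : ℝ) ≤ n ∧
      16 / (1 / 10 ^ 12 : ℝ) * K * (((10 ^ 13 : ℕ) : ℝ) * (lam : ℝ) ^ I) ≤
        (n : ℝ) ^ (1 - 1 / (64 * 10 ^ 12) / Real.log (Real.log n)) ∧
      3 * ((10 ^ 13 : ℕ) : ℝ) * n <
        (n : ℝ) ^ (1 - 1 / (64 * 10 ^ 12) / Real.log (Real.log n)) *
          (1 + (1 / 10 ^ 12 : ℝ) / 2) ^ I := by
  have hn0 : 0 < n := by
    rcases Nat.eq_zero_or_pos n with h | h
    · rw [h] at f1
      simp at f1
      linarith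
    · exact h
  have hnR : (0 : ℝ) < n := by exact_mod_cast hn0
  obtain ⟨y, hy⟩ : ∃ y, y = Real.log n := ⟨_, rfl⟩
  obtain ⟨z, hz⟩ : ∃ z, z = Real.log y := ⟨_, rfl⟩
  have hny : (n : ℝ) = Real.exp y := by rw [hy, Real.exp_log hnR]
  rw [← hy] at f1 f2 f3 f4 f5 ⊢
  rw [← hz] at f3 f4 f5 ⊢
  have hy0 : 0 < y := by linarith
  have hz0 : 0 < z := by linarith
  have hn2 : (2 : ℝ) ≤ n := by
    rw [hny]
    have := Real.add_one_le_exp y
    linarith
  -- `L`
  obtain ⟨L, hL⟩ : ∃ L, L = Real.log ((n : ℝ) + 2) := ⟨_, rfl⟩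
  have hyL : y ≤ L := by
    rw [hy, hL]
    exact Real.log_le_log hnR (by linarith)
  have hLy : L ≤ 2 * y := by
    have h1 : (n : ℝ) + 2 ≤ n ^ 2 := by nlinarith
    have h2 := Real.log_le_log (by linarith) h1
    rw [Real.log_pow] at h2
    rw [hL, hy]
    exact_mod_cast h2
  obtain ⟨lam, hlam⟩ : ∃ lam : ℕ, lam = ⌈Λ * L ^ 2⌉₊ := ⟨_, rfl⟩
  have hlam1 : Λ * L ^ 2 ≤ lam := by rw [hlam]; exact Nat.le_ceil _
  have hlam2 : (lam : ℝ) < Λ * L ^ 2 + 1 := by
    rw [hlam]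
    exact Nat.ceil_lt_add_one (by positivity)
  have hyL2 : y ^ 2 ≤ L ^ 2 := by nlinarith
  have hlam13R : (10 : ℝ) ^ 13 ≤ lam := by
    have h1 : (10 : ℝ) ^ 13 ≤ y ^ 2 := by nlinarith
    nlinarith
  have hlam13 : 10 ^ 13 ≤ lam := by exact_mod_cast hlam13R
  have hlam0 : (0 : ℝ) < lam := by linarith [show (0:ℝ) < 10 ^ 13 by norm_num]
  have hloglam0 : 0 < Real.log lam := Real.log_pos (by linarith [show (1:ℝ) < 10 ^ 13 by norm_num])
  have hloglam : Real.log lam ≤ 3 * z := by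
    have h1 : (lam : ℝ) ≤ (4 * Λ + 1) * y ^ 2 := by
      have h2 : L ^ 2 ≤ 4 * y ^ 2 := by nlinarith
      have h3 : Λ * L ^ 2 ≤ Λ * (4 * y ^ 2) := mul_le_mul_of_nonneg_left h2 (by linarith)
      have h4 : 1 ≤ y ^ 2 := by nlinarith
      linarith
    have h2 := Real.log_le_log hlam0 h1
    rw [Real.log_mul (by linarith) (by positivity), Real.log_pow] at h2
    have h3 : Real.log (4 * Λ + 1) ≤ z := by
      rw [hz]
      exact Real.log_le_log (by linarith) f2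
    rw [← hz] at h2
    push_cast at h2
    linarith
  have hw0 : Real.log (10 ^ 13) ≤ 39 := by
    rw [Real.log_pow]
    have : Real.log 10 ≤ 3 := by
      rw [Real.log_le_iff_le_exp (by norm_num)]
      have h1 := Real.exp_one_gt_d9
      have h2 : Real.exp 3 = Real.exp 1 ^ 3 := by
        rw [← Real.exp_nat_mul]
        norm_num
      rw [h2]
      have h3 : (2.7 : ℝ) ^ 3 ≤ Real.exp 1 ^ 3 := pow_le_pow_left₀ (by norm_num) (by linarith) 3
      linarith [show (10:ℝ) ≤ 2.7 ^ 3 by norm_num]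
    push_cast
    linarith
  have hw00 : 0 ≤ Real.log (10 ^ 13) := Real.log_nonneg (by norm_num)
  obtain ⟨w, hw⟩ : ∃ w : ℝ, w = Real.log (10 ^ 13) := ⟨_, rfl⟩
  rw [← hw] at hw0 hw00
  obtain ⟨I, hI⟩ : ∃ I : ℕ, I = ⌊(y / 2 - w) / Real.log lam⌋₊ := ⟨_, rfl⟩
  have hnum : 3 / 7 * y ≤ y / 2 - w := by linarith
  have hquot0 : 0 ≤ (y / 2 - w) / Real.log lam :=
    div_nonneg (by linarith) hloglam0.le
  have hI1 : (I : ℝ) ≤ (y / 2 - w) / Real.log lam := by
    rw [hI]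
    exact Nat.floor_le hquot0
  have hI2 : (y / 2 - w) / Real.log lam - 1 ≤ I := by
    rw [hI]
    have := Nat.lt_floor_add_one ((y / 2 - w) / Real.log lam)
    linarith
  have hI1' : (I : ℝ) * Real.log lam ≤ y / 2 - w := by
    rwa [le_div_iff₀ hloglam0] at hI1
  have hIX : y / z / 8 ≤ I := by
    have h1 : y / z / 7 ≤ (y / 2 - w) / Real.log lam := by
      rw [le_div_iff₀ hloglam0]
      calc y / z / 7 * Real.log lam ≤ y / z / 7 * (3 * z) := by gcongr
        _ = 3 / 7 * y := by field_simp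
        _ ≤ _ := hnum
    linarith
  have hIn : (I : ℝ) ≤ n := by
    have h1 : (1 : ℝ) ≤ Real.log lam := by
      rw [Real.le_log_iff_exp_le hlam0]
      have := Real.exp_one_lt_d9
      linarith [show (3:ℝ) < 10 ^ 13 by norm_num]
    have hI0 : (0 : ℝ) ≤ I := Nat.cast_nonneg I
    have h2 : (I : ℝ) ≤ I * Real.log lam := by nlinarith
    have h3 : y ≤ n := by
      rw [hny]
      have := Real.add_one_le_exp y
      linarith
    linarith
  have hlamI : (10 : ℝ) ^ 13 * (lam : ℝ) ^ I ≤ Real.exp (y / 2) := by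
    have h1 : (lam : ℝ) ^ I = Real.exp (I * Real.log lam) := by
      rw [← Real.rpow_natCast, Real.rpow_def_of_pos hlam0, mul_comm]
    have h2 : (10 : ℝ) ^ 13 = Real.exp w := by rw [hw, Real.exp_log (by norm_num)]
    rw [h1, h2, ← Real.exp_add]
    apply Real.exp_le_exp.2
    linarith
  obtain ⟨K, hK⟩ : ∃ K : ℕ, K = ⌈(n : ℝ) ^ (1/4 : ℝ)⌉₊ := ⟨_, rfl⟩
  have hK1 : (n : ℝ) ^ (1/4 : ℝ) ≤ K := by rw [hK]; exact Nat.le_ceil _
  have hn14 : (1 : ℝ) ≤ (n : ℝ) ^ (1/4 : ℝ) := Real.one_le_rpow (by linarith) (by norm_num)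
  have hK2 : (K : ℝ) ≤ 2 * (n : ℝ) ^ (1/4 : ℝ) := by
    have := Nat.ceil_lt_add_one (zero_le_one.trans hn14)
    rw [← hK] at this
    linarith
  have hKpos : 1 ≤ K := by
    have : (1 : ℝ) ≤ K := hn14.trans hK1
    exact_mod_cast this
  -- powers of `n` as exponentials
  have hpow : ∀ t : ℝ, (n : ℝ) ^ t = Real.exp (y * t) := by
    intro t
    rw [Real.rpow_def_of_pos hnR, ← hy]
  obtain ⟨c, hc⟩ : ∃ c : ℝ, c = 1 / (64 * 10 ^ 12) := ⟨_, rfl⟩
  have hc0 : 0 < c := by rw [hc]; positivity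
  have hc1 : c ≤ 1 / 10 := by rw [hc]; norm_num
  rw [← hc] at f5 ⊢
  have hcz : c / z ≤ 1 / 10 := by
    rw [div_le_iff₀ hz0]
    nlinarith
  refine ⟨lam, I, K, hlam13, by rw [← hL]; exact hlam1, hKpos, hK1, hIn, ?_, ?_⟩
  · rw [show (((10 ^ 13 : ℕ)) : ℝ) = 10 ^ 13 by norm_num]
    have h16 : (16 / (1 / 10 ^ 12) : ℝ) = 16 * 10 ^ 12 := by norm_num
    rw [h16, hpow]
    have h45 : (32 * 10 ^ 12 : ℝ) ≤ Real.exp 45 := by
      have h1 := Real.exp_one_gt_d9
      have h2 : Real.exp 45 = Real.exp 1 ^ 45 := by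
        rw [← Real.exp_nat_mul]
        norm_num
      rw [h2]
      have h3 : (2.7 : ℝ) ^ 45 ≤ Real.exp 1 ^ 45 := pow_le_pow_left₀ (by norm_num) (by linarith) 45
      linarith [show (32 * 10 ^ 12:ℝ) ≤ 2.7 ^ 45 by norm_num]
    have hK3 : (K : ℝ) ≤ 2 * Real.exp (y * (1/4)) := by rw [← hpow]; exact hK2
    calc 16 * 10 ^ 12 * (K : ℝ) * (10 ^ 13 * (lam : ℝ) ^ I)
        ≤ 16 * 10 ^ 12 * (2 * Real.exp (y * (1/4))) * Real.exp (y / 2) := by gcongr
      _ = 32 * 10 ^ 12 * (Real.exp (y * (1/4)) * Real.exp (y / 2)) := by ring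
      _ ≤ Real.exp 45 * (Real.exp (y * (1/4)) * Real.exp (y / 2)) := by gcongr
      _ = Real.exp (45 + (y * (1/4) + y / 2)) := by rw [Real.exp_add, Real.exp_add]
      _ ≤ Real.exp (y * (1 - c / z)) := by
          apply Real.exp_le_exp.2
          have : y * (9/10) ≤ y * (1 - c / z) := mul_le_mul_of_nonneg_left (by linarith) hy0.le
          linarith
  · rw [show (((10 ^ 13 : ℕ)) : ℝ) = 10 ^ 13 by norm_num]
    rw [hpow]
    have h1 : Real.exp (y / z / 8 * (1 / 10 ^ 12 / 4)) ≤ (1 + (1 / 10 ^ 12 : ℝ) / 2) ^ I := by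
      have h2 : Real.exp (1 / 10 ^ 12 / 4) ≤ 1 + (1 / 10 ^ 12 : ℝ) / 2 := by
        have h3 := Real.exp_bound_div_one_sub_of_interval (x := 1 / 10 ^ 12 / 4) (by norm_num)
          (by norm_num)
        refine h3.trans ?_
        rw [div_le_iff₀ (by norm_num)]
        norm_num
      calc Real.exp (y / z / 8 * (1 / 10 ^ 12 / 4)) ≤ Real.exp ((I : ℝ) * (1 / 10 ^ 12 / 4)) := by
            apply Real.exp_le_exp.2
            exact mul_le_mul_of_nonneg_right hIX (by norm_num)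
        _ = Real.exp (1 / 10 ^ 12 / 4) ^ I := by rw [Real.exp_nat_mul]
        _ ≤ _ := pow_le_pow_left₀ (Real.exp_pos _).le h2 _
    have h4 : (3 * 10 ^ 13 : ℝ) < Real.exp (c * (y / z)) := by
      rw [← Real.log_lt_iff_lt_exp (by norm_num)]
      exact f5
    calc 3 * 10 ^ 13 * (n : ℝ) < Real.exp (c * (y / z)) * n := by gcongr
      _ = Real.exp (c * (y / z)) * Real.exp y := by rw [hny]
      _ = Real.exp (y * (1 - c / z)) * Real.exp (y / z / 8 * (1 / 10 ^ 12 / 4)) := by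
          rw [← Real.exp_add, ← Real.exp_add]
          congr 1
          rw [hc]
          field_simp
          ring
      _ ≤ _ := by gcongr

theorem main (h1 : S_LIGHT) (h2 : S_CN) (h3 : S_CNT) (h4 : S_DET) : S_MAIN := by
  classical
  obtain ⟨K2, c0, hK2, hc0, hlight⟩ := h1
  obtain ⟨K1, hK1, hcn⟩ := h2
  obtain ⟨Λ, hΛ⟩ : ∃ Λ : ℝ, Λ = (2 * K1 + K2 + 5) / c0 + 1 := ⟨_, rfl⟩
  have hΛ1 : 1 ≤ Λ := by
    rw [hΛ]
    have : 0 ≤ (2 * K1 + K2 + 5) / c0 := by positivity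
    linarith
  obtain ⟨n0, hn0⟩ := numbers Λ
  refine ⟨1 / (64 * 10 ^ 12), by norm_num, n0, fun n hn v F hF => ?_⟩
  obtain ⟨f1, f2, f3, f4, f5⟩ := hn0 n hn
  obtain ⟨lam, I, K, hlam, hlamΛ, hK, hKn, hIn, hscale, hlong⟩ := params Λ hΛ1 n f1 f2 f3 f4 f5
  obtain ⟨L, hL⟩ : ∃ L, L = Real.log ((n : ℝ) + 2) := ⟨_, rfl⟩
  rw [← hL] at hlamΛ
  have hnR : (0 : ℝ) < n := by
    have hne : (n : ℝ) ≠ 0 := by
      intro h
      rw [h, Real.log_zero] at f1
      linarith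
    positivity
  have hL1 : 1 ≤ L := by
    have : Real.log n ≤ L := by
      rw [hL]
      exact Real.log_le_log hnR (by linarith)
    linarith
  have hKR : (1 : ℝ) ≤ K := by exact_mod_cast hK
  -- some scale has many light pieces
  have hex : ∀ l ∈ F, ∃ i < I, DL (1 / 10 ^ 12) (10 ^ 13 * lam ^ i) lam n (gt l) K := by
    intro l hl
    obtain ⟨hsw, i, j, hi, hj, hd⟩ := hF l hl
    obtain ⟨a, b, hab, hbn, hd'⟩ : ∃ a b : ℕ, a ≤ b ∧ b ≤ n ∧
        (n : ℝ) ^ (1 - 1 / (64 * 10 ^ 12) / Real.log (Real.log n)) ≤ dst (gt l a) (gt l b) := by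
      rcases le_total i j with h | h
      · exact ⟨i, j, h, hj, hd⟩
      · exact ⟨j, i, h, hi, by rw [dst_comm]; exact hd⟩
    by_contra hcon
    push Not at hcon
    have hdet := h4 (1 / 10 ^ 12) (10 ^ 13) lam I K n a b (gt l) (by norm_num) (by norm_num)
      (by norm_num) (by omega) hK (adj_gt hsw) hab hbn hcon (hscale.trans hd')
    have h5 : (0 : ℝ) < (1 + (1 / 10 ^ 12 : ℝ) / 2) ^ I := by positivity
    have h6 := mul_le_mul_of_nonneg_right hd' h5.le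
    linarith
  -- counting
  have hA : K2 * L ^ 2 - c0 * lam ≤ -((2 * K1 + 5) * L ^ 2) := by
    have h5 : c0 * (Λ * L ^ 2) ≤ c0 * lam := mul_le_mul_of_nonneg_left hlamΛ hc0.le
    have h6 : c0 * (Λ * L ^ 2) = (2 * K1 + K2 + 5) * L ^ 2 + c0 * L ^ 2 := by
      rw [hΛ]
      field_simp
    have h7 : 0 ≤ c0 * L ^ 2 := by positivity
    linarith
  have hlogm : ∀ m : ℕ, m ≤ n → Real.log ((m : ℝ) + 2) ^ 2 ≤ L ^ 2 := by
    intro m hm
    have hm' : (m : ℝ) ≤ n := by exact_mod_cast hm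
    have hm0 : (0 : ℝ) ≤ m := Nat.cast_nonneg m
    have h5 : 0 ≤ Real.log ((m : ℝ) + 2) := Real.log_nonneg (by linarith)
    have h6 : Real.log ((m : ℝ) + 2) ≤ L := by
      rw [hL]
      exact Real.log_le_log (by linarith) (by linarith)
    exact pow_le_pow_left₀ h5 h6 2
  have hcnt : ∀ i < I, ((F.filter fun l => DL (1 / 10 ^ 12) (10 ^ 13 * lam ^ i) lam n (gt l) K).card
      : ℝ) ≤ mu0 ^ n * ((n : ℝ) + 1) ^ (2 * K) *
        Real.exp ((K + 1) * (K1 * L ^ 2) + K * (K2 * L ^ 2 - c0 * lam)) := by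
    intro i _
    refine h3 (1 / 10 ^ 12) (K2 * L ^ 2 - c0 * lam) (K1 * L ^ 2) (10 ^ 13 * lam ^ i) lam n K
      (by positivity) ?_ ?_ v _ ?_
    · intro w m G hm hG
      refine (hcn w m G hG).trans ?_
      refine mul_le_mul_of_nonneg_left (Real.exp_le_exp.2 ?_) (pow_pos mu0_pos m).le
      exact mul_le_mul_of_nonneg_left (hlogm m hm) hK1
    · intro w m G hm hG
      have hlp : 1 ≤ lam ^ i := Nat.one_le_pow _ _ (by omega)
      refine (hlight (10 ^ 13 * lam ^ i) lam m ?_ ?_ hlam w G hG).trans ?_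
      · exact Nat.le_mul_of_pos_right _ (by omega)
      · exact Even.mul_right (by decide) _
      · refine mul_le_mul_of_nonneg_left (Real.exp_le_exp.2 ?_) (pow_pos mu0_pos m).le
        have := mul_le_mul_of_nonneg_left (hlogm m hm) hK2
        linarith
    · intro l hl
      obtain ⟨h5, h6⟩ := Finset.mem_filter.1 hl
      exact ⟨(hF l h5).1, h6⟩
  have hunion : (F.card : ℝ) ≤ ∑ i ∈ Finset.range I,
      ((F.filter fun l => DL (1 / 10 ^ 12) (10 ^ 13 * lam ^ i) lam n (gt l) K).card : ℝ) := by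
    have h5 : F ⊆ (Finset.range I).biUnion
        fun i => F.filter fun l => DL (1 / 10 ^ 12) (10 ^ 13 * lam ^ i) lam n (gt l) K := by
      intro l hl
      obtain ⟨i, hi, hi'⟩ := hex l hl
      rw [Finset.mem_biUnion]
      exact ⟨i, Finset.mem_range.2 hi, Finset.mem_filter.2 ⟨hl, hi'⟩⟩
    have h6 := (Finset.card_le_card h5).trans Finset.card_biUnion_le
    exact_mod_cast h6
  have hsum : (F.card : ℝ) ≤ I * (mu0 ^ n * ((n : ℝ) + 1) ^ (2 * K) *
        Real.exp ((K + 1) * (K1 * L ^ 2) + K * (K2 * L ^ 2 - c0 * lam))) := by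
    refine hunion.trans ?_
    refine (Finset.sum_le_sum fun i hi => hcnt i (Finset.mem_range.1 hi)).trans (le_of_eq ?_)
    rw [Finset.sum_const, Finset.card_range, nsmul_eq_mul]
  have hn2 : (n : ℝ) + 2 = Real.exp L := by rw [hL, Real.exp_log (by linarith)]
  have hIe : (I : ℝ) ≤ Real.exp L := by rw [← hn2]; linarith
  have hpe : ((n : ℝ) + 1) ^ (2 * K) ≤ Real.exp (2 * K * L) := by
    calc ((n : ℝ) + 1) ^ (2 * K) ≤ ((n : ℝ) + 2) ^ (2 * K) :=
          pow_le_pow_left₀ (by linarith) (by linarith) _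
      _ = Real.exp (2 * K * L) := by
          rw [hn2, ← Real.exp_nat_mul]
          push_cast
          ring_nf
  have hmu : 0 < mu0 ^ n := pow_pos mu0_pos n
  calc (F.card : ℝ) ≤ _ := hsum
    _ ≤ Real.exp L * (mu0 ^ n * Real.exp (2 * K * L) *
        Real.exp ((K + 1) * (K1 * L ^ 2) + K * (K2 * L ^ 2 - c0 * lam))) := by gcongr
    _ = mu0 ^ n * Real.exp (L + 2 * K * L +
        ((K + 1) * (K1 * L ^ 2) + K * (K2 * L ^ 2 - c0 * lam))) := by
        rw [Real.exp_add (L + 2 * K * L), Real.exp_add L]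
        ring
    _ ≤ mu0 ^ n * Real.exp (-(n : ℝ) ^ (1 / 5 : ℝ)) := by
        refine mul_le_mul_of_nonneg_left (Real.exp_le_exp.2 ?_) hmu.le
        have e1 : (K : ℝ) * (K2 * L ^ 2 - c0 * lam) ≤ K * -((2 * K1 + 5) * L ^ 2) :=
          mul_le_mul_of_nonneg_left hA (by linarith)
        have e2 : ((K : ℝ) + 1) * (K1 * L ^ 2) ≤ (2 * K) * (K1 * L ^ 2) :=
          mul_le_mul_of_nonneg_right (by linarith) (by positivity)
        have e3 : L ≤ L ^ 2 := by nlinarith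
        have e4 : L ≤ K * L ^ 2 := by nlinarith
        have e5 : (K : ℝ) * L ≤ K * L ^ 2 := mul_le_mul_of_nonneg_left e3 (by linarith)
        have e6 : (K : ℝ) ≤ K * L ^ 2 := by nlinarith
        have e7 : (n : ℝ) ^ (1 / 5 : ℝ) ≤ K := by
          refine le_trans ?_ hKn
          apply Real.rpow_le_rpow_of_exponent_le
          · have : (2:ℝ) ≤ n := by
              have h5 := Real.log_le_sub_one_of_pos hnR
              linarith
            linarith
          · norm_num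
        have e8 : 0 ≤ (K : ℝ) * L ^ 2 := by positivity
        nlinarith

end Pool.Agent.Y25.QB
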